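import Mathlib
import Pool.Agent.V1191.Car.Norm

/-!
# The `L²` bounds of the Carleson operators with phase `|t|^ε` are not uniform in `ε`

We disprove Q1 of MP_45ee41_an: for every `C` and every sufficiently small `ε > 0` there is a
Schwartz function `f` with `‖C_ε f‖₂ > C ‖f‖₂`.  In other words the best constants `A_ε` tend to
infinity as `ε → 0+`.

The mechanism: with `λ = μ / ε` one has `e^{iλ t^ε} = e^{iμ/ε} e^{iμ (t^ε - 1)/ε}` and for
`|log t| ≪ 1/ε` the second factor is essentially `t^{iμ}`, so that `H_{ε,λ}` acts on the frequency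
`ξ` essentially as multiplication by a constant times `ξ^{-iμ}`; for lacunary `log ξ_j` the phases
`ξ_j x - μ log ξ_j` can be aligned by a choice `μ = μ(x)`.
-/

open MeasureTheory Filter Topology

open scoped SchwartzMap ENNReal

namespace Pool.Agent.Results.MP_45ee41_an.UniformBoundFails

/-- The truncated integral
`∫_{δ < |x - y| < 1/δ} e^{i l |x - y|^ε} / (x - y) f(y) dy`. -/
noncomputable def truncated (ε l : ℝ) (f : ℝ → ℂ) (x δ : ℝ) : ℂ :=
  ∫ y in {y : ℝ | δ < |x - y| ∧ |x - y| < 1 / δ},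
    Complex.exp (Complex.I * (l * |x - y| ^ ε : ℝ)) / ((x - y : ℝ) : ℂ) * f y

/-- `H_{ε,l} f(x)`: the limit of the truncated integrals as `δ → 0+`. -/
noncomputable def H (ε l : ℝ) (f : 𝓢(ℝ, ℂ)) (x : ℝ) : ℂ :=
  limUnder (𝓝[>] (0 : ℝ)) (truncated ε l f x)

/-- `C_ε f(x) = sup_l |H_{ε,l} f(x)|`, as an extended nonnegative number. -/
noncomputable def maxOp (ε : ℝ) (f : 𝓢(ℝ, ℂ)) (x : ℝ) : ℝ≥0∞ := ⨆ l : ℝ, ‖H ε l f x‖ₑ

open Pool.Agent.V1191.Car in
/-- For every `C` and all sufficiently small `ε > 0`, there is a Schwartz function `f` with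
`C² ∫ |f|² < ∫ (C_ε f)²`. -/
theorem result (C : ℝ) : ∃ ε₀ > 0, ∀ ε : ℝ, 0 < ε → ε < ε₀ → ∃ f : 𝓢(ℝ, ℂ),
    ENNReal.ofReal C ^ 2 * ∫⁻ x, ‖f x‖ₑ ^ 2 < ∫⁻ x, maxOp ε f x ^ 2 := by
  have hpi := Real.pi_pos
  have hpi3 := Real.pi_gt_three
  -- parameters
  set Q : ℝ := 2 + 10 * (2 + CG) with hQ
  have hQpos : 0 < Q := by have := CG_nonneg; rw [hQ]; linarith
  obtain ⟨K, hK⟩ := exists_nat_gt (160000 + 24 * Q + 8 * Real.pi / 3 * (5 / 4) * 10 ^ 12 * 2)
  have hlog2 : 1 / 2 < Real.log 2 := by linarith [Real.log_two_gt_d9]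
  have hKpos : (0 : ℝ) < K := by
    refine lt_trans ?_ hK
    positivity
  have hKnat : 0 < K := by exact_mod_cast hKpos
  have h2K : (K : ℝ) < 2 ^ K := by exact_mod_cast Nat.lt_two_pow_self (n := K)
  set ξ : ℕ → ℕ := fun j => 2 ^ (K * 5 ^ j) with hξ
  set y : ℕ → ℝ := fun j => (K * 5 ^ j : ℝ) * Real.log 2 with hy
  have hξy : ∀ j, (ξ j : ℝ) = Real.exp (y j) := by
    intro j
    simp only [hξ, hy]
    rw [mul_comm (K * 5 ^ j : ℝ), Real.exp_mul, Real.exp_log (by norm_num)]
    have : (K * 5 ^ j : ℝ) = ((K * 5 ^ j : ℕ) : ℝ) := by push_cast; rfl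
    rw [this, Real.rpow_natCast]
    push_cast
    rfl
  have hinj : Function.Injective ξ := by
    intro a b hab
    simp only [hξ] at hab
    have h1 := Nat.pow_right_injective le_rfl hab
    have h2 := Nat.eq_of_mul_eq_mul_left hKnat h1
    exact Nat.pow_right_injective (by norm_num) h2
  set N : ℝ := 2 ^ K with hN
  have hN1 : 160000 ≤ N := by
    have : 0 ≤ 24 * Q + 8 * Real.pi / 3 * (5 / 4) * 10 ^ 12 * 2 := by positivity
    linarith
  have hN2 : (2 / N) * (2 + 10 * (2 + CG)) ≤ 1 / 12 := by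
    rw [← hQ, div_mul_eq_mul_div, div_le_iff₀ (by linarith)]
    have : 0 ≤ 8 * Real.pi / 3 * (5 / 4) * 10 ^ 12 * 2 := by positivity
    linarith
  have hξN : ∀ j, N ≤ ξ j := by
    intro j
    simp only [hN, hξ]
    push_cast
    apply pow_le_pow_right₀ (by norm_num)
    exact Nat.le_mul_of_pos_right K (by positivity)
  obtain ⟨J, hJ⟩ := exists_nat_gt (576 * C ^ 2)
  have hJpos : (0 : ℝ) < J := lt_of_le_of_lt (by positivity) hJ
  have hJnat : 0 < J := by exact_mod_cast hJpos
  have hyJ : 0 < y J := by simp only [hy]; positivity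
  refine ⟨min (1 / 2) (1 / (5 * y J)), by positivity, fun ε hε hεlt => ?_⟩
  have hε1 : ε ≤ 1 / 2 := hεlt.le.trans (min_le_left _ _)
  have hε2 : ε ≤ 1 / (5 * y J) := hεlt.le.trans (min_le_right _ _)
  have hεy : ∀ j < J, ε * y j ≤ 1 / 5 := by
    intro j hj
    have h1 : y j ≤ y J := by
      simp only [hy]
      gcongr
      norm_num
    calc ε * y j ≤ 1 / (5 * y J) * y J := mul_le_mul hε2 h1 (by simp only [hy]; positivity)
          (by positivity)
      _ = 1 / 5 := by field_simp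
  -- the test function
  have hcs : HasCompactSupport (fT ξ J) := by
    apply HasCompactSupport.intro (isCompact_closedBall (0 : ℝ) (2 * Real.pi))
    intro x hx
    apply fT_zero
    rw [Metric.mem_closedBall, dist_zero_right, Real.norm_eq_abs, not_le] at hx
    exact hx.le
  have hsm : ContDiff ℝ (⊤ : ℕ∞) (fT ξ J) := by
    unfold fT
    apply ContDiff.mul
    · exact Complex.ofRealCLM.contDiff.comp bump.contDiff
    · apply ContDiff.sum
      intro j _
      unfold E
      apply Complex.contDiff_exp.comp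
      apply contDiff_const.mul
      exact Complex.ofRealCLM.contDiff.comp (contDiff_const.mul contDiff_id)
  refine ⟨hcs.toSchwartzMap hsm, ?_⟩
  have hlow : ∀ x ∈ Set.Icc (-(Real.pi / 2)) (Real.pi / 2),
      ENNReal.ofReal (J / 12) ^ 2 ≤ maxOp ε (hcs.toSchwartzMap hsm) x ^ 2 := by
    intro x hx
    obtain ⟨l, w, hw, hJw⟩ := key hε hε1 hJnat hξy (fun j => by simp only [hy]; ring)
      (by simp only [hy]; positivity)
      (by
        simp only [hy]
        rw [pow_zero, mul_one]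
        have h1 : 8 * Real.pi / 3 * (5 / 4) * 10 ^ 12 * 2 ≤ K := by
          have : 0 ≤ 160000 + 24 * Q := by positivity
          linarith
        have h2 : (K : ℝ) * (1 / 2) ≤ K * Real.log 2 :=
          mul_le_mul_of_nonneg_left hlog2.le hKpos.le
        have h3 : 8 * Real.pi / 3 * (5 / 4) * 10 ^ 12 ≤ K * Real.log 2 := by linarith
        calc 8 * Real.pi / 3 = 1 / 10 ^ 12 * (4 / 5 * (8 * Real.pi / 3 * (5 / 4) * 10 ^ 12)) := by
              ring
          _ ≤ _ := by gcongr)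
      hN1 hN2 hξN hεy (abs_le.mpr hx)
    have hH : H ε l (hcs.toSchwartzMap hsm) x = w := hw.limUnder_eq
    apply pow_le_pow_left₀ zero_le
    refine le_trans ?_ (le_iSup _ l)
    rw [hH, ← ofReal_norm]
    exact ENNReal.ofReal_le_ofReal hJw
  calc ENNReal.ofReal C ^ 2 * ∫⁻ x, ‖(hcs.toSchwartzMap hsm) x‖ₑ ^ 2 ≤
        ENNReal.ofReal |C| ^ 2 * ENNReal.ofReal (4 * Real.pi * J) := by
        gcongr
        · exact le_abs_self C
        · exact fT_norm hinj J
    _ = ENNReal.ofReal (|C| ^ 2 * (4 * Real.pi * J)) := by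
        rw [ENNReal.ofReal_mul (p := |C| ^ 2) (by positivity), ENNReal.ofReal_pow (abs_nonneg _)]
    _ < ENNReal.ofReal ((J / 12) ^ 2 * Real.pi) := by
        rw [ENNReal.ofReal_lt_ofReal_iff (by positivity), sq_abs]
        have : 576 * C ^ 2 * (Real.pi * J) < J * (Real.pi * J) :=
          mul_lt_mul_of_pos_right hJ (by positivity)
        nlinarith
    _ = ∫⁻ _x in Set.Icc (-(Real.pi / 2)) (Real.pi / 2), ENNReal.ofReal (J / 12) ^ 2 := by
        rw [setLIntegral_const, Real.volume_Icc, ENNReal.ofReal_mul (by positivity),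
          ENNReal.ofReal_pow (by positivity)]
        congr 2; ring
    _ ≤ ∫⁻ x in Set.Icc (-(Real.pi / 2)) (Real.pi / 2),
          maxOp ε (hcs.toSchwartzMap hsm) x ^ 2 :=
        setLIntegral_mono' measurableSet_Icc hlow
    _ ≤ ∫⁻ x, maxOp ε (hcs.toSchwartzMap hsm) x ^ 2 := setLIntegral_le_lintegral _ _

end Pool.Agent.Results.MP_45ee41_an.UniformBoundFails
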